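import Pool.Agent.Helper379_HC.Stmts
import Pool.Agent.R508.CGraag

/-!
# First letters in a right-angled Artin group from piling normal forms (job PILE of helper379)
-/

set_option autoImplicit false
set_option linter.unusedSectionVars false

namespace Pool.Agent.Helper613_HC

open Pool.Agent.R508

variable {V : Type} (Γ : SimpleGraph V) [DecidableEq V] [DecidableRel Γ.Adj]

/-- the vertices whose pile has a sign at the bottom -/
def Bot (s : CG.St V) : Set V := {v | ∃ b, (s v).getLast? = some (some b)}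

theorem bot_empty : Bot (fun _ : V => ([] : List (Option Bool))) = ∅ := by
  ext v
  simp [Bot]

theorem getLast?_cons_ne {α : Type} (x : α) (l : List α) (h : l ≠ []) :
    (x :: l).getLast? = l.getLast? := by
  cases l with
  | nil => exact absurd rfl h
  | cons y l => rfl

theorem bot_push_mono (a : CG.L V) (s : CG.St V) : Bot s ⊆ Bot (CG.push Γ a s) := by
  rintro v ⟨b, hb⟩
  have hne : s v ≠ [] := by
    intro h
    rw [h] at hb
    simp at hb
  refine ⟨b, ?_⟩
  unfold CG.push
  split_ifs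
  · rw [getLast?_cons_ne _ _ hne, hb]
  · exact hb
  · rw [getLast?_cons_ne _ _ hne, hb]

theorem bot_push_or (a : CG.L V) (s : CG.St V) (v : V) (hv : v ∈ Bot (CG.push Γ a s)) :
    v ∈ Bot s ∨ (v = a.1 ∧ s v = []) := by
  obtain ⟨b, hb⟩ := hv
  by_cases hne : s v = []
  · unfold CG.push at hb
    split_ifs at hb with h1 h2
    · exact Or.inr ⟨h1, hne⟩
    · left
      exact ⟨b, hb⟩
    · rw [hne] at hb
      simp at hb
  · left
    refine ⟨b, ?_⟩
    unfold CG.push at hb
    split_ifs at hb with h1 h2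
    · rwa [getLast?_cons_ne _ _ hne] at hb
    · exact hb
    · rwa [getLast?_cons_ne _ _ hne] at hb

theorem bot_push_sub (a : CG.L V) (s : CG.St V) : Bot (CG.push Γ a s) ⊆ insert a.1 (Bot s) := by
  intro v hv
  rcases bot_push_or Γ a s v hv with h | h
  · exact Or.inr h
  · exact Or.inl h.1

/-- if the letter pops, the old state is bigger -/
theorem bot_act_pop (a : CG.L V) {s : CG.St V} (hs : CG.Valid Γ s)
    (h : (s a.1).head? = some (some (!a.2))) : Bot (CG.act Γ a s) ⊆ Bot s := by
  obtain ⟨s', hs', rfl, _⟩ := CG.valid_top Γ hs a.1 (!a.2) h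
  have : CG.act Γ a (CG.push Γ (a.1, !a.2) s') = s' := CG.act_pop Γ a s'
  rw [this]
  exact bot_push_mono Γ _ s'

/-- if the letter does not pop, the new state is bigger -/
theorem bot_act_push (a : CG.L V) {s : CG.St V}
    (h : (s a.1).head? ≠ some (some (!a.2))) : Bot s ⊆ Bot (CG.act Γ a s) := by
  rw [CG.act_push Γ a s h]
  exact bot_push_mono Γ _ s

theorem bot_act_sub (a : CG.L V) {s : CG.St V} (hs : CG.Valid Γ s) :
    Bot (CG.act Γ a s) ⊆ insert a.1 (Bot s) := by
  by_cases h : (s a.1).head? = some (some (!a.2))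
  · exact (bot_act_pop Γ a hs h).trans (Set.subset_insert _ _)
  · rw [CG.act_push Γ a s h]
    exact bot_push_sub Γ a s

theorem bot_clique {s : CG.St V} (hs : CG.Valid Γ s) :
    (∀ v ∈ Bot s, ∀ u, s u = [] → Γ.Adj v u) ∧ (∀ u ∈ Bot s, ∀ v ∈ Bot s, u = v ∨ Γ.Adj u v) := by
  induction hs with
  | empty =>
    rw [bot_empty]
    simp
  | push a s hs h ih =>
    obtain ⟨ih1, ih2⟩ := ih
    constructor
    · intro v hv u hu
      have hu' : s u = [] ∧ u ≠ a.1 ∧ Γ.Adj a.1 u := by
        unfold CG.push at hu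
        split_ifs at hu with h1 h2
        exact ⟨hu, h1, h2⟩
      rcases bot_push_or Γ a s v hv with h1 | ⟨h1, _⟩
      · exact ih1 v h1 u hu'.1
      · rw [h1]
        exact hu'.2.2
    · intro u hu v hv
      rcases bot_push_or Γ a s v hv with h1 | ⟨h1, h1'⟩
      · rcases bot_push_or Γ a s u hu with h2 | ⟨h2, h2'⟩
        · exact ih2 u h2 v h1
        · right
          exact (ih1 v h1 u h2').symm
      · rcases bot_push_or Γ a s u hu with h2 | ⟨h2, h2'⟩
        · right
          exact ih1 u h2 v h1'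
        · left
          rw [h1, h2]

theorem valid_bot_empty {s : CG.St V} (hs : CG.Valid Γ s) : Bot s = ∅ → s = fun _ => [] := by
  induction hs with
  | empty => intro _; rfl
  | push a s hs h ih =>
    intro h1
    exfalso
    have h2 : Bot s = ∅ := by
      rw [Set.eq_empty_iff_forall_notMem] at h1 ⊢
      intro v hv
      exact h1 v (bot_push_mono Γ a s hv)
    have h3 := ih h2
    subst h3
    have h4 : a.1 ∈ Bot (CG.push Γ a (fun _ => [])) := by
      refine ⟨a.2, ?_⟩
      rw [CG.push_self]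
      rfl
    rw [h1] at h4
    exact h4

/-- the state of a group element -/
def state (g : CG.RAAG Γ) : {s : CG.St V // CG.Valid Γ s} :=
  (MulOpposite.unop (CG.actHom Γ g)) ⟨fun _ => [], CG.Valid.empty⟩

theorem state_one : (state Γ 1).1 = fun _ => [] := by
  simp [state]

theorem state_mul_val (g : CG.RAAG Γ) (a : CG.L V) :
    (state Γ (g * CG.val Γ a)).1 = CG.act Γ a (state Γ g).1 := by
  unfold state
  rw [map_mul, MulOpposite.unop_mul, CG.actHom_val, MulOpposite.unop_op]
  rfl

theorem lval_mk (w : List (CG.L V)) :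
    PresentedGroup.mk (CG.rels Γ) (FreeGroup.mk w) = CG.lval Γ w := by
  induction w with
  | nil => rfl
  | cons a w ih =>
    have h1 : (FreeGroup.mk (a :: w) : FreeGroup V) = FreeGroup.mk [a] * FreeGroup.mk w := by
      rw [FreeGroup.mul_mk]; rfl
    rw [h1, map_mul, ih, CG.lval_cons]
    congr 1
    rcases a with ⟨v, e⟩
    cases e
    · unfold CG.val
      simp only [Bool.false_eq_true, if_false]
      have h2 : (FreeGroup.mk [(v, false)] : FreeGroup V) = (FreeGroup.of v)⁻¹ := rfl
      rw [h2, map_inv]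
      rfl
    · rfl

theorem exists_word (g : CG.RAAG Γ) : ∃ w : List (CG.L V), CG.lval Γ w = g := by
  obtain ⟨x, rfl⟩ := PresentedGroup.mk_surjective (CG.rels Γ) g
  exact ⟨x.toWord, by rw [← lval_mk, FreeGroup.mk_toWord]⟩

theorem exists_red [Fintype V] (n : ℕ) : ∀ w : List (CG.L V), w.length ≤ n →
    ∃ w', CG.Red Γ ∅ w' ∧ CG.lval Γ w' = CG.lval Γ w := by
  induction n with
  | zero =>
    intro w hw
    have : w = [] := List.length_eq_zero_iff.1 (Nat.le_zero.1 hw)
    subst this
    exact ⟨[], trivial, rfl⟩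
  | succ n ih =>
    intro w hw
    by_cases h : CG.Red Γ ∅ w
    · exact ⟨w, h, rfl⟩
    · obtain ⟨w', h1, h2⟩ := CG.not_red_short Γ w h
      obtain ⟨w'', h3, h4⟩ := ih w' (by omega)
      exact ⟨w'', h3, h4.trans h2⟩

theorem state_ne [Fintype V] (g : CG.RAAG Γ) (h : (state Γ g).1 = fun _ => []) : g = 1 := by
  obtain ⟨w, rfl⟩ := exists_word Γ g
  obtain ⟨w', h1, h2⟩ := exists_red Γ w.length w le_rfl
  rw [← h2] at h ⊢
  have h3 := CG.run_eq Γ w' ⟨fun _ => [], CG.Valid.empty⟩
  have h4 : (state Γ (CG.lval Γ w')).1 = CG.run Γ w' (fun _ => []) := h3.symm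
  have h5 := CG.red_run Γ w' ∅ (fun _ => []) (fun a ha => by simp at ha) h1
  rw [← h4, h] at h5
  have h6 : w'.length = 0 := by
    have h7 : CG.nz (fun _ : V => ([] : List (Option Bool))) = 0 := by simp [CG.nz]
    omega
  have h7 : w' = [] := List.length_eq_zero_iff.1 h6
  rw [h7]
  rfl

theorem pile_graph [Fintype V] :
    ∃ F : CG.RAAG Γ → Set V, F 1 = ∅ ∧ (∀ g, g ≠ 1 → (F g).Nonempty) ∧
    (∀ g v, F (g * PresentedGroup.of v) ⊆ insert v (F g)) ∧
    (∀ g v, F (g * (PresentedGroup.of v)⁻¹) ⊆ insert v (F g)) ∧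
    (∀ g u v, Γ.Adj u v → ∃ K : Set V, (∀ a ∈ K, ∀ b ∈ K, a = b ∨ Γ.Adj a b) ∧
      F g ⊆ K ∧ F (g * PresentedGroup.of u) ⊆ K ∧ F (g * PresentedGroup.of v) ⊆ K ∧
      F (g * PresentedGroup.of u * PresentedGroup.of v) ⊆ K) := by
  have hpos : ∀ (g : CG.RAAG Γ) (v : V), (state Γ (g * PresentedGroup.of v)).1 =
      CG.act Γ (v, true) (state Γ g).1 := by
    intro g v
    have := state_mul_val Γ g (v, true)
    simpa [CG.val] using this
  have hneg : ∀ (g : CG.RAAG Γ) (v : V), (state Γ (g * (PresentedGroup.of v)⁻¹)).1 =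
      CG.act Γ (v, false) (state Γ g).1 := by
    intro g v
    have := state_mul_val Γ g (v, false)
    simpa [CG.val] using this
  refine ⟨fun g => Bot (state Γ g).1, ?_, ?_, ?_, ?_, ?_⟩
  · simp only
    rw [state_one]
    exact bot_empty
  · intro g hg
    rw [Set.nonempty_iff_ne_empty]
    intro h
    exact hg (state_ne Γ g (valid_bot_empty Γ (state Γ g).2 h))
  · intro g v
    simp only
    rw [hpos]
    exact bot_act_sub Γ (v, true) (state Γ g).2
  · intro g v
    simp only
    rw [hneg]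
    exact bot_act_sub Γ (v, false) (state Γ g).2
  · intro g u v huv
    simp only
    rw [hpos, hpos, hpos, hpos]
    have hs := (state Γ g).2
    set s := (state Γ g).1 with hsdef
    -- the bigger of `s` and `act v s`
    have big : ∀ s : CG.St V, CG.Valid Γ s → ∃ s', CG.Valid Γ s' ∧ Bot s ⊆ Bot s' ∧
        Bot (CG.act Γ (v, true) s) ⊆ Bot s' := by
      intro s hs
      by_cases h : (s v).head? = some (some (!true))
      · exact ⟨s, hs, subset_rfl, bot_act_pop Γ (v, true) hs h⟩
      · exact ⟨_, CG.act_valid Γ (v, true) hs, bot_act_push Γ (v, true) h, subset_rfl⟩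
    have hcomm : CG.act Γ (v, true) (CG.act Γ (u, true) s) = CG.act Γ (u, true) (CG.act Γ (v, true) s) :=
      CG.act_comm Γ (a := (v, true)) (b := (u, true)) huv.symm hs
    have hhead : (CG.act Γ (v, true) s) u = s u := CG.act_head Γ (a := (u, true)) (b := (v, true)) huv s
    by_cases h : (s u).head? = some (some (!true))
    · have h1 : Bot (CG.act Γ (u, true) s) ⊆ Bot s := bot_act_pop Γ (u, true) hs h
      have h2 : Bot (CG.act Γ (u, true) (CG.act Γ (v, true) s)) ⊆ Bot (CG.act Γ (v, true) s) :=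
        bot_act_pop Γ (u, true) (CG.act_valid Γ _ hs) (by rw [hhead]; exact h)
      obtain ⟨s', hs', h3, h4⟩ := big s hs
      refine ⟨Bot s', (bot_clique Γ hs').2, h3, h1.trans h3, h4, ?_⟩
      rw [hcomm]
      exact h2.trans h4
    · have h1 : Bot s ⊆ Bot (CG.act Γ (u, true) s) := bot_act_push Γ (u, true) h
      have h2 : Bot (CG.act Γ (v, true) s) ⊆ Bot (CG.act Γ (u, true) (CG.act Γ (v, true) s)) :=
        bot_act_push Γ (u, true) (by rw [hhead]; exact h)
      obtain ⟨s', hs', h3, h4⟩ := big _ (CG.act_valid Γ (u, true) hs)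
      refine ⟨Bot s', (bot_clique Γ hs').2, h1.trans h3, h3, ?_, h4⟩
      rw [hcomm] at h4
      exact h2.trans h4

open Pool.Agent.W326.DU Pool.Agent.Y66.HC Pool.Agent.Helper379_HC in
/-- TARGET -/
theorem pile : PropPile := by
  classical
  intro V _ ad hsymm hirr
  let Γ : SimpleGraph V := { Adj := ad, symm := ⟨fun a b h => hsymm a b h⟩, loopless := ⟨fun a h => hirr a h⟩ }
  exact pile_graph Γ

end Pool.Agent.Helper613_HC
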